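import Pool.Agent.Helper19.SDim.Spec

noncomputable section

open MeasureTheory Filter Set Metric
open scoped Topology ENNReal NNReal RealInnerProductSpace ContDiff Gradient

namespace Helper19.SDim

variable {N : ℕ}

lemma deriv_scaled (ψ : ℝ → ℝ) (hψ : ContDiff ℝ 1 ψ) (a d t : ℝ) :
    deriv (fun t => ψ ((t - a) / d)) t = deriv ψ ((t - a) / d) / d := by
  have h1 : HasDerivAt ψ (deriv ψ ((t - a) / d)) ((t - a) / d) :=
    (hψ.differentiable (by norm_num) _).hasDerivAt
  have h2 : HasDerivAt (fun t : ℝ => (t - a) / d) (1 / d) t :=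
    ((hasDerivAt_id t).sub_const a).div_const d
  have h3 := h1.comp t h2
  have : deriv (ψ ∘ fun t => (t - a) / d) t = deriv ψ ((t - a) / d) * (1 / d) := h3.deriv
  rw [show (fun t => ψ ((t - a) / d)) = ψ ∘ fun t => (t - a) / d from rfl, this]
  ring

lemma grad_sq (η : E N → ℝ) (hη : ContDiff ℝ 1 η) (x : E N) :
    ∇ (fun x => η x ^ 2) x = (2 * η x) • ∇ η x := by
  have h1 : HasGradientAt η (∇ η x) x := (hη.differentiable (by norm_num) x).hasGradientAt
  have h2 : HasFDerivAt η ((InnerProductSpace.toDual ℝ (E N)) (∇ η x)) x := h1.hasFDerivAt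
  have h3 := h2.pow 2
  apply HasGradientAt.gradient
  rw [hasGradientAt_iff_hasFDerivAt]
  have h4 : (InnerProductSpace.toDual ℝ (E N)) ((2 * η x) • ∇ η x) =
      (2 • η x ^ (2 - 1)) • (InnerProductSpace.toDual ℝ (E N)) (∇ η x) := by
    rw [LinearIsometryEquiv.map_smulₛₗ]
    simp
  rw [h4]
  exact h3

/-- the pointwise Young step -/
lemma young_step {p K d r A0 e ps dps S : ℝ} (hp1 : 1 < p) (hp2 : p < 2) (hK : 0 < K) (hd : 0 < d)
    (hr : 0 < r) (hA0 : 0 ≤ A0) (he0 : 0 ≤ e) (he1 : e ≤ 1) (hS : 0 ≤ S) (hdps : 0 ≤ dps)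
    (hps0 : 0 ≤ ps) (hps : ps ≤ K * (1 + S) ^ (1 / p) * dps ^ ((p - 1) / p)) {g : ℝ} (hg0 : 0 ≤ g)
    (hg : g ≤ 11 / r) :
    2 * (ps * e * A0 ^ (p - 1) * g) ≤
      (A0 ^ p * dps * e ^ 2) / (2 * d) +
        2 * (4 ^ (p - 1)) * K ^ p * 11 ^ p * (d ^ (p - 1) * (r ^ (-p) * (1 + S))) := by
  have hp0 : 0 < p := by linarith
  have hp10 : 0 < p - 1 := by linarith
  set A : ℝ := A0 ^ (p - 1) * dps ^ ((p - 1) / p) * e ^ (2 * (p - 1) / p) with hA
  set B : ℝ := K * (1 + S) ^ (1 / p) * (11 / r) with hB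
  have hA_nn : 0 ≤ A := by positivity
  have hB_nn : 0 ≤ B := by positivity
  have hee : e ≤ e ^ (2 * (p - 1) / p) := by
    rcases eq_or_lt_of_le he0 with h | h
    · rw [← h]; positivity
    · have hle : 2 * (p - 1) / p ≤ 1 := by
        rw [div_le_one hp0]; linarith
      calc e = e ^ (1 : ℝ) := (Real.rpow_one e).symm
        _ ≤ e ^ (2 * (p - 1) / p) := Real.rpow_le_rpow_of_exponent_ge h he1 hle
  have h1 : ps * e * A0 ^ (p - 1) * g ≤ A * B := by
    calc ps * e * A0 ^ (p - 1) * g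
        ≤ (K * (1 + S) ^ (1 / p) * dps ^ ((p - 1) / p)) * e ^ (2 * (p - 1) / p) * A0 ^ (p - 1)
            * (11 / r) := by gcongr
      _ = A * B := by rw [hA, hB]; ring
  -- Young
  set m : ℝ := (1 / (4 * d)) ^ ((p - 1) / p) with hm
  have hm0 : 0 < m := by positivity
  have hconj : (p / (p - 1)).HolderConjugate p := by
    rw [Real.holderConjugate_iff]
    constructor
    · rw [lt_div_iff₀ hp10]; linarith
    · field_simp
      ring
  have hy := Real.young_inequality_of_nonneg (a := m * A) (b := B / m) (by positivity)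
    (by positivity) hconj
  have hAB : m * A * (B / m) = A * B := by field_simp
  rw [hAB] at hy
  have hmA : (m * A) ^ (p / (p - 1)) = 1 / (4 * d) * (A0 ^ p * dps * e ^ 2) := by
    rw [Real.mul_rpow hm0.le hA_nn, hm, ← Real.rpow_mul (by positivity)]
    rw [show (p - 1) / p * (p / (p - 1)) = 1 by field_simp, Real.rpow_one]
    congr 1
    rw [hA, Real.mul_rpow (by positivity) (by positivity), Real.mul_rpow (by positivity) (by positivity),
      ← Real.rpow_mul hA0, ← Real.rpow_mul hdps, ← Real.rpow_mul he0]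
    rw [show (p - 1) * (p / (p - 1)) = p by field_simp,
      show (p - 1) / p * (p / (p - 1)) = 1 by field_simp,
      show 2 * (p - 1) / p * (p / (p - 1)) = (2 : ℕ) by field_simp; norm_num, Real.rpow_one,
      Real.rpow_natCast]
  have hBm : (B / m) ^ p = (4 * d) ^ (p - 1) * (K ^ p * 11 ^ p * (r ^ (-p) * (1 + S))) := by
    rw [Real.div_rpow hB_nn hm0.le]
    have hmp : m ^ p = (1 / (4 * d)) ^ (p - 1) := by
      rw [hm, ← Real.rpow_mul (by positivity)]
      congr 1
      field_simp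
    have hmp' : (m ^ p)⁻¹ = (4 * d) ^ (p - 1) := by
      rw [hmp, one_div, Real.inv_rpow (by positivity), inv_inv]
    have hBp : B ^ p = K ^ p * 11 ^ p * (r ^ (-p) * (1 + S)) := by
      rw [hB, Real.mul_rpow (by positivity) (by positivity), Real.mul_rpow (by positivity) (by positivity),
        ← Real.rpow_mul (by positivity), show 1 / p * p = 1 by field_simp, Real.rpow_one,
        Real.div_rpow (by norm_num) hr.le, Real.rpow_neg hr.le]
      ring
    rw [div_eq_mul_inv, hmp', hBp]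
    ring
  rw [hmA, hBm] at hy
  have hq1 : 1 / (4 * d) * (A0 ^ p * dps * e ^ 2) / (p / (p - 1)) ≤ 1 / (4 * d) * (A0 ^ p * dps * e ^ 2) := by
    apply div_le_self (by positivity)
    rw [one_le_div hp10]; linarith
  have hq2 : (4 * d) ^ (p - 1) * (K ^ p * 11 ^ p * (r ^ (-p) * (1 + S))) / p ≤
      (4 * d) ^ (p - 1) * (K ^ p * 11 ^ p * (r ^ (-p) * (1 + S))) := by
    apply div_le_self (by positivity)
    linarith
  have h4 : (4 * d) ^ (p - 1) = 4 ^ (p - 1) * d ^ (p - 1) := Real.mul_rpow (by norm_num) hd.le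
  calc 2 * (ps * e * A0 ^ (p - 1) * g) ≤ 2 * (A * B) := by gcongr
    _ ≤ 2 * (1 / (4 * d) * (A0 ^ p * dps * e ^ 2) +
        (4 * d) ^ (p - 1) * (K ^ p * 11 ^ p * (r ^ (-p) * (1 + S)))) := by linarith
    _ = _ := by
        rw [h4]
        field_simp
        ring


lemma rpow_sub_two_mul_sq {p t : ℝ} (hp : 1 < p) (ht : 0 ≤ t) : t ^ (p - 2) * t ^ 2 = t ^ p := by
  rcases eq_or_lt_of_le ht with h | h
  · rw [← h, Real.zero_rpow (by linarith : p ≠ 0)]; simp
  · rw [← Real.rpow_natCast t 2, ← Real.rpow_add h]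
    congr 1; push_cast; ring

lemma rpow_sub_two_mul {p t : ℝ} (hp : 1 < p) (ht : 0 ≤ t) : t ^ (p - 2) * t = t ^ (p - 1) := by
  rcases eq_or_lt_of_le ht with h | h
  · rw [← h, Real.zero_rpow (by linarith : p - 1 ≠ 0)]; simp
  · nth_rewrite 2 [← Real.rpow_one t]
    rw [← Real.rpow_add h]
    congr 1; ring

lemma add_rpow_le {p s t : ℝ} (hp : 1 ≤ p) (hs : 0 ≤ s) (ht : 0 ≤ t) :
    (s + t) ^ p ≤ 2 ^ (p - 1) * (s ^ p + t ^ p) := by
  have := NNReal.rpow_add_le_mul_rpow_add_rpow ⟨s, hs⟩ ⟨t, ht⟩ hp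
  exact_mod_cast this

/-- `γ ≤ p`. -/
lemma gam_le {N : ℕ} {p : ℝ} (hN : 2 ≤ N) (hp1 : 1 < p) (hp2 : p < 2) : gam N p ≤ p := by
  have hN' : (2 : ℝ) ≤ N := by exact_mod_cast hN
  unfold gam
  rw [div_le_iff₀ (by linarith)]
  nlinarith

lemma gam_pos {N : ℕ} {p : ℝ} (hN : 2 ≤ N) (hp1 : 1 < p) (hp2 : p < 2) : 0 < gam N p := by
  have hN' : (2 : ℝ) ≤ N := by exact_mod_cast hN
  unfold gam
  apply div_pos (mul_pos (by linarith) (by linarith)) (by linarith)

lemma pst_pos {N : ℕ} {p : ℝ} (hN : 2 ≤ N) (hp1 : 1 < p) (hp2 : p < 2) : 0 < pst N p := by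
  have hN' : (2 : ℝ) ≤ N := by exact_mod_cast hN
  unfold pst
  apply div_pos (mul_pos (by linarith) (by linarith)) (by linarith)

lemma final_arith {p K C1 d X IF IP : ℝ} (hK : 0 < K) (hC1 : 0 < C1) (hd : 0 < d)
    (hX : 0 ≤ X) (hIF : 0 ≤ IF)
    (h1 : IP / (2 * d) - C1 * (d ^ (p - 1) * X) ≤ IF) :
    2 ^ (p - 1) * (K * d ^ (-p) * IP) + 2 ^ (p - 1) * (2 ^ p * K * 11 ^ p * X) ≤
      (2 ^ (p - 1) * (2 * K) + 2 ^ (p - 1) * (2 * K * C1 + 2 ^ p * K * 11 ^ p)) *
        (d ^ (1 - p) * IF + X) := by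
  have hE3 : IP ≤ 2 * d * IF + 2 * C1 * d ^ p * X := by
    have h1 : IP / (2 * d) ≤ IF + C1 * (d ^ (p - 1) * X) := by linarith
    rw [div_le_iff₀ (by positivity)] at h1
    have h2 : d ^ p = d ^ (p - 1) * d := by
      rw [← Real.rpow_add_one hd.ne']; congr 1; ring
    rw [h2]
    linarith
  have h1 : d ^ (-p) * d = d ^ (1 - p) := by
    rw [← Real.rpow_add_one hd.ne']; congr 1; ring
  have h2 : d ^ (-p) * d ^ p = 1 := by
    rw [← Real.rpow_add hd]; simp
  have h3 : 0 ≤ d ^ (1 - p) * IF := by positivity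
  calc 2 ^ (p - 1) * (K * d ^ (-p) * IP) + 2 ^ (p - 1) * (2 ^ p * K * 11 ^ p * X)
      ≤ 2 ^ (p - 1) * (K * d ^ (-p) * (2 * d * IF + 2 * C1 * d ^ p * X)) +
        2 ^ (p - 1) * (2 ^ p * K * 11 ^ p * X) := by gcongr
    _ = 2 ^ (p - 1) * (2 * K) * ((d ^ (-p) * d) * IF) +
        2 ^ (p - 1) * (2 * K * C1 * (d ^ (-p) * d ^ p) + 2 ^ p * K * 11 ^ p) * X := by
        ring
    _ = 2 ^ (p - 1) * (2 * K) * (d ^ (1 - p) * IF) +
        2 ^ (p - 1) * (2 * K * C1 + 2 ^ p * K * 11 ^ p) * X := by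
        rw [h1, h2, mul_one]
    _ ≤ (2 ^ (p - 1) * (2 * K) + 2 ^ (p - 1) * (2 * K * C1 + 2 ^ p * K * 11 ^ p)) *
          (d ^ (1 - p) * IF) +
        (2 ^ (p - 1) * (2 * K) + 2 ^ (p - 1) * (2 * K * C1 + 2 ^ p * K * 11 ^ p)) * X := by
        gcongr
        · apply le_add_of_nonneg_right; positivity
        · apply le_add_of_nonneg_left; positivity
    _ = _ := by ring

theorem cacc_thm (hEXT : S_EXT) (hCHAIN : S_CHAIN) (hPROD : S_PROD) (hSOB : S_SOB) (hCUT : S_CUT) :
    S_CACC := by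
  intro N p ψ w K hN hp1 hp2 hA
  have hp0 : 0 < p := by linarith
  have hp10 : 0 < p - 1 := by linarith
  have hK := hA.K_pos
  obtain ⟨CS, hCS, hS⟩ := hSOB N p hN hp1 hp2
  set C1 : ℝ := 2 * (4 ^ (p - 1)) * K ^ p * 11 ^ p with hC1
  have hC1p : 0 < C1 := by positivity
  set C2 : ℝ := 2 ^ (p - 1) * (2 * K) + 2 ^ (p - 1) * (2 * K * C1 + 2 ^ p * K * 11 ^ p) with hC2
  have hC2p : 0 < C2 := by positivity
  refine ⟨CS * C2, by positivity, ?_⟩
  intro Ω u G F hΩ hW hF hEq x₀ r a d hr hB ha hd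
  obtain ⟨φ, hφ⟩ := hW
  obtain ⟨η, hη1, hη0, hηle, hηone, hηz, hηgz, hηg⟩ := hCUT N x₀ r hr
  have hγp := gam_pos hN hp1 hp2
  have hγle := gam_le hN hp1 hp2
  have hq := pst_pos hN hp1 hp2
  have hmΩ : MeasurableSet Ω := hΩ.measurableSet
  -- η² and its bounds
  have hη2 : ContDiff ℝ 1 (fun x => η x ^ 2) := hη1.pow 2
  have hη2b : ∀ x, |η x ^ 2| ≤ 1 + 22 / r := by
    intro x
    rw [abs_of_nonneg (by positivity)]
    have : η x ^ 2 ≤ 1 := pow_le_one₀ (hη0 x) (hηle x)
    have : 0 ≤ 22 / r := by positivity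
    linarith
  have hη2g : ∀ x, ‖∇ (fun x => η x ^ 2) x‖ ≤ 1 + 22 / r := by
    intro x
    rw [grad_sq η hη1, norm_smul]
    have h1 : ‖2 * η x‖ ≤ 2 := by
      rw [Real.norm_eq_abs, abs_of_nonneg (by have := hη0 x; positivity)]
      have := hηle x; linarith
    have h2 := hηg x
    calc ‖2 * η x‖ * ‖∇ η x‖ ≤ 2 * (11 / r) := by gcongr
      _ ≤ 1 + 22 / r := by
        have : 2 * (11 / r) = 22 / r := by ring
        linarith
  -- general composite
  have comp : ∀ g : ℝ → ℝ, ContDiff ℝ 1 g → (∀ s ≤ 0, g s = 0) → (∀ s, 0 ≤ deriv g s) →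
      (∀ s, deriv g s ≤ K) →
      W1 Ω p (fun x => g ((u x - a) / d) * η x ^ 2)
        (fun x => η x ^ 2 • ((deriv g ((u x - a) / d) / d) • G x) +
          g ((u x - a) / d) • ∇ (fun x => η x ^ 2) x) := by
    intro g hg hg0 hg1 hg2
    have hc : ContDiff ℝ 1 (fun t => g ((t - a) / d)) :=
      hg.comp ((contDiff_id.sub contDiff_const).div_const d)
    obtain ⟨k, -, hk⟩ := hCHAIN N Ω p φ u G (fun t => g ((t - a) / d)) (K / d) hp1.le hφ hc
      (by
        apply hg0
        apply div_nonpos_of_nonpos_of_nonneg _ hd.le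
        linarith)
      (by
        intro t
        rw [deriv_scaled g hg, abs_of_nonneg (div_nonneg (hg1 _) hd.le)]
        gcongr
        exact hg2 _)
    have := hPROD N Ω p _ _ _ (fun x => η x ^ 2) (1 + 22 / r) hp1.le hk hη2 hη2b hη2g
    refine ⟨fun n x => g ((φ (k n) x - a) / d) * η x ^ 2, ?_⟩
    convert this using 1
    funext x
    rw [deriv_scaled g hg]
  -- the relevant sets
  set S : Set (E N) := ball x₀ r ∩ {x | a < u x} with hSdef
  have hSΩ : S ⊆ Ω := fun x hx => hB hx.1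
  have hS0 : NullMeasurableSet S volume := by
    have h1 : NullMeasurableSet {x | a < u x} (volume.restrict Ω) :=
      nullMeasurableSet_lt aemeasurable_const hφ.mu.1.aemeasurable
    rw [nullMeasurableSet_restrict hmΩ.nullMeasurableSet] at h1
    have h2 := (measurableSet_ball (x := x₀) (ε := r)).nullMeasurableSet.inter h1 (μ := volume)
    have h3 : S = ball x₀ r ∩ ({x | a < u x} ∩ Ω) := by
      ext x
      simp only [hSdef, mem_inter_iff, mem_setOf_eq]
      constructor
      · rintro ⟨h, h'⟩; exact ⟨h, h', hB h⟩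
      · rintro ⟨h, h', -⟩; exact ⟨h, h'⟩
    rw [h3]
    exact h2
  have hSint : ∀ f : E N → ℝ, ∫ x in S, f x = ∫ x in Ω, S.indicator f x := by
    intro f
    rw [← integral_indicator₀ hS0, ← integral_indicator hmΩ, indicator_indicator,
      inter_eq_self_of_subset_right hSΩ]
  have hBint : ∀ f : E N → ℝ, ∫ x in ball x₀ r, f x = ∫ x in Ω, (ball x₀ r).indicator f x := by
    intro f
    rw [← integral_indicator measurableSet_ball, ← integral_indicator hmΩ, indicator_indicator,
      inter_eq_self_of_subset_right hB]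
  set s : E N → ℝ := fun x => (u x - a) / d with hs
  have hspos : ∀ x, a < u x → 0 < s x := fun x hx => div_pos (by linarith) hd
  have hsneg : ∀ x, ¬ a < u x → s x ≤ 0 := fun x hx =>
    div_nonpos_of_nonpos_of_nonneg (by linarith [not_lt.1 hx]) hd.le
  have hum : AEMeasurable u (volume.restrict Ω) := hφ.mu.1.aemeasurable
  have hsm : AEMeasurable s (volume.restrict Ω) := (hum.sub_const a).div_const d
  set Q : E N → ℝ := S.indicator (fun x => 1 + (s x) ^ gam N p) with hQ
  have hupow : Integrable (fun x => |u x| ^ p) (volume.restrict Ω) := by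
    have := hφ.mu.integrable_norm_rpow (by simp [hp0]) ENNReal.ofReal_ne_top
    rw [ENNReal.toReal_ofReal hp0.le] at this
    exact this
  have hGpow : Integrable (fun x => ‖G x‖ ^ p) (volume.restrict Ω) := by
    have := hφ.mG.integrable_norm_rpow (by simp [hp0]) ENNReal.ofReal_ne_top
    rw [ENNReal.toReal_ofReal hp0.le] at this
    exact this
  have hQnn : ∀ x, 0 ≤ Q x := by
    intro x
    apply indicator_nonneg
    intro y hy
    have := hspos y hy.2
    positivity
  have hQm : AEStronglyMeasurable Q (volume.restrict Ω) := by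
    apply AEStronglyMeasurable.indicator₀
    · exact ((hsm.pow_const _).const_add 1).aestronglyMeasurable
    · exact hS0.mono_ac (Measure.absolutelyContinuous_of_le Measure.restrict_le_self)
  have hball : Integrable ((ball x₀ r).indicator (fun _ => (2 : ℝ))) (volume.restrict Ω) := by
    rw [integrable_indicator_iff measurableSet_ball]
    have hfin : volume.restrict Ω (ball x₀ r) ≠ ⊤ :=
      ne_top_of_le_ne_top measure_ball_lt_top.ne (Measure.restrict_apply_le _ _)
    exact integrableOn_const (μ := volume.restrict Ω) (C := (2 : ℝ)) hfin (by simp)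
  have hQint : Integrable Q (volume.restrict Ω) := by
    refine Integrable.mono' (hball.add (hupow.const_mul ((1 / d) ^ p))) hQm ?_
    filter_upwards with x
    rw [Real.norm_eq_abs, abs_of_nonneg (hQnn x)]
    simp only [Pi.add_apply]
    by_cases hx : x ∈ S
    · rw [hQ, indicator_of_mem hx, indicator_of_mem hx.1]
      have h1 := hspos x hx.2
      have h2 : s x ≤ |u x| / d := by
        simp only [hs]
        gcongr
        have := le_abs_self (u x); linarith
      have h3 : (s x) ^ gam N p ≤ 1 + (|u x| / d) ^ p := by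
        rcases le_or_gt (s x) 1 with h | h
        · have : (s x) ^ gam N p ≤ 1 := Real.rpow_le_one h1.le h hγp.le
          have : 0 ≤ (|u x| / d) ^ p := by positivity
          linarith
        · have : (s x) ^ gam N p ≤ (s x) ^ p := Real.rpow_le_rpow_of_exponent_le h.le hγle
          have : (s x) ^ p ≤ (|u x| / d) ^ p := Real.rpow_le_rpow h1.le h2 hp0.le
          linarith
      have h4 : (1 / d) ^ p * |u x| ^ p = (|u x| / d) ^ p := by
        rw [← Real.mul_rpow (by positivity) (abs_nonneg _)]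
        congr 1; ring
      rw [h4]; linarith
    · rw [hQ, indicator_of_notMem hx]
      have h1 : 0 ≤ (ball x₀ r).indicator (fun _ => (2 : ℝ)) x := indicator_nonneg (by simp) _
      positivity
  set P : E N → ℝ := fun x => ‖G x‖ ^ p * deriv ψ (s x) * η x ^ 2 with hP
  have hPnn : ∀ x, 0 ≤ P x := fun x => by
    have := hA.dψ_nonneg (s x)
    positivity
  have hPint : Integrable P (volume.restrict Ω) := by
    refine Integrable.mono' (hGpow.const_mul K) ?_ ?_
    · have h1 : AEMeasurable (fun x => deriv ψ (s x)) (volume.restrict Ω) :=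
        (hA.ψ_c1.continuous_deriv (by norm_num)).measurable.comp_aemeasurable hsm
      exact ((hφ.mG.1.norm.aemeasurable.pow_const p).mul h1).mul
        (hη2.continuous.measurable.aemeasurable) |>.aestronglyMeasurable
    · filter_upwards with x
      rw [Real.norm_eq_abs, abs_of_nonneg (hPnn x)]
      have h1 := hA.dψ_le (s x)
      have h0 := hA.dψ_nonneg (s x)
      have h2 : η x ^ 2 ≤ 1 := pow_le_one₀ (hη0 x) (hηle x)
      have h3 : 0 ≤ ‖G x‖ ^ p := by positivity
      calc ‖G x‖ ^ p * deriv ψ (s x) * η x ^ 2 ≤ ‖G x‖ ^ p * K * 1 := by gcongr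
        _ = K * ‖G x‖ ^ p := by ring
  have hψ'0 : ∀ t ≤ 0, deriv ψ t = 0 := by
    intro t ht
    apply IsLocalMin.deriv_eq_zero
    exact Filter.Eventually.of_forall fun y => by rw [hA.ψ_zero t ht]; exact hA.ψ_nonneg y
  have hw'0 : ∀ t ≤ 0, deriv w t = 0 := by
    intro t ht
    apply IsLocalMin.deriv_eq_zero
    exact Filter.Eventually.of_forall fun y => by rw [hA.w_zero t ht]; exact hA.w_nonneg y
  have hzero : ∀ x, x ∉ ball x₀ r → ∇ (fun x => η x ^ 2) x = 0 := by
    intro x hx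
    rw [grad_sq η hη1, hηgz x hx, smul_zero]
  -- the first test function
  obtain hW1 := comp ψ hA.ψ_c1 hA.ψ_zero hA.dψ_nonneg hA.dψ_le
  obtain ⟨hI1, hI2, hI3⟩ := hEXT N Ω p G F _ _ hΩ hp1 hφ.mG hF hEq hW1
  have pt1 : ∀ x, P x / (2 * d) - C1 * (d ^ (p - 1) * (r ^ (-p) * Q x)) ≤
      ‖G x‖ ^ (p - 2) * ⟪G x, η x ^ 2 • ((deriv ψ ((u x - a) / d) / d) • G x) +
          ψ ((u x - a) / d) • ∇ (fun x => η x ^ 2) x⟫ := by
    intro x
    by_cases hxS : x ∈ S
    · have hxs := hspos x hxS.2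
      have hQx : Q x = 1 + (s x) ^ gam N p := by rw [hQ, indicator_of_mem hxS]
      have hy := young_step (A0 := ‖G x‖) (e := η x) (ps := ψ (s x)) (dps := deriv ψ (s x))
        (S := (s x) ^ gam N p) (g := ‖∇ η x‖) hp1 hp2 hK hd hr (norm_nonneg _) (hη0 x) (hηle x)
        (by positivity) (hA.dψ_nonneg _) (hA.ψ_nonneg _) (hA.ψ_bound _ hxs) (norm_nonneg _) (hηg x)
      rw [grad_sq η hη1, inner_add_right, inner_smul_right, inner_smul_right, inner_smul_right,
        inner_smul_right, real_inner_self_eq_norm_sq]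
      have h1 : ‖G x‖ ^ (p - 2) * (η x ^ 2 * (deriv ψ ((u x - a) / d) / d * ‖G x‖ ^ 2)) = P x / d := by
        rw [hP]
        simp only
        rw [← rpow_sub_two_mul_sq hp1 (norm_nonneg (G x))]
        ring
      have h2 : - (2 * (ψ (s x) * η x * ‖G x‖ ^ (p - 1) * ‖∇ η x‖)) ≤
          ‖G x‖ ^ (p - 2) * (ψ ((u x - a) / d) * (2 * η x * ⟪G x, ∇ η x⟫)) := by
        have h3 := abs_real_inner_le_norm (G x) (∇ η x)
        have h4 := (abs_le.1 h3).1
        rw [← rpow_sub_two_mul hp1 (norm_nonneg (G x))]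
        have h5 := hA.ψ_nonneg (s x)
        have h6 := hη0 x
        have h7 : 0 ≤ ‖G x‖ ^ (p - 2) := by positivity
        have h8 : 0 ≤ ‖G x‖ ^ (p - 2) * (ψ (s x) * (2 * η x)) := by positivity
        have h9 := mul_le_mul_of_nonneg_left h4 h8
        have e1 : ψ ((u x - a) / d) = ψ (s x) := rfl
        rw [e1]
        nlinarith [h9]
      rw [mul_add, h1]
      have h10 : P x / d = P x / (2 * d) + P x / (2 * d) := by field_simp; ring
      have h11 : ‖G x‖ ^ p * deriv ψ (s x) * η x ^ 2 / (2 * d) = P x / (2 * d) := rfl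
      rw [hQx]
      rw [h11] at hy
      linarith
    · have hV : η x ^ 2 • ((deriv ψ ((u x - a) / d) / d) • G x) +
          ψ ((u x - a) / d) • ∇ (fun x => η x ^ 2) x = 0 ∧ P x = 0 := by
        by_cases hxB : x ∈ ball x₀ r
        · have hxu : ¬ a < u x := fun h => hxS ⟨hxB, h⟩
          have h0 := hsneg x hxu
          have e1 : ψ ((u x - a) / d) = 0 := hA.ψ_zero _ h0
          have e2 : deriv ψ ((u x - a) / d) = 0 := hψ'0 _ h0
          refine ⟨by rw [e1, e2]; simp, ?_⟩
          simp only [hP, hs, e2]; simp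
        · refine ⟨by rw [hηz x hxB, hzero x hxB]; simp, ?_⟩
          simp only [hP, hηz x hxB]; simp
      rw [hV.1, hV.2, hQ, indicator_of_notMem hxS]
      simp
  have hE1 : (∫ x in Ω, P x) / (2 * d) - C1 * (d ^ (p - 1) * (r ^ (-p) * ∫ x in Ω, Q x)) ≤
      ∫ x in ball x₀ r, |F x| := by
    have hFball : Integrable ((ball x₀ r).indicator (fun x => |F x|)) (volume.restrict Ω) := by
      rw [integrable_indicator_iff measurableSet_ball, IntegrableOn, Measure.restrict_restrict
        measurableSet_ball, inter_eq_self_of_subset_left hB]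
      have hFm : MemLp F (ENNReal.ofReal (p / (p - 1))) (volume.restrict (ball x₀ r)) :=
        hF.mono_measure (Measure.restrict_mono_set _ hB)
      have : IsFiniteMeasure (volume.restrict (ball x₀ r)) := ⟨by
        rw [Measure.restrict_apply_univ]; exact measure_ball_lt_top⟩
      refine (hFm.integrable ?_).abs
      rw [← ENNReal.ofReal_one]
      apply ENNReal.ofReal_le_ofReal
      rw [one_le_div hp10]; linarith
    have h1 : (∫ x in Ω, P x) / (2 * d) - C1 * (d ^ (p - 1) * (r ^ (-p) * ∫ x in Ω, Q x)) =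
        ∫ x in Ω, (P x / (2 * d) - C1 * (d ^ (p - 1) * (r ^ (-p) * Q x))) := by
      rw [integral_sub (hPint.div_const _) (((hQint.const_mul _).const_mul _).const_mul _),
        integral_div, integral_const_mul, integral_const_mul, integral_const_mul]
    rw [h1, hBint]
    refine le_trans (integral_mono ((hPint.div_const _).sub
      (((hQint.const_mul _).const_mul _).const_mul _)) hI1 pt1) ?_
    rw [hI3]
    refine integral_mono hI2 hFball ?_
    intro x
    simp only
    by_cases hxB : x ∈ ball x₀ r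
    · rw [indicator_of_mem hxB]
      have h1 : |ψ ((u x - a) / d) * η x ^ 2| ≤ 1 := by
        rw [abs_mul, abs_of_nonneg (hA.ψ_nonneg _), abs_of_nonneg (by positivity)]
        have h2 : η x ^ 2 ≤ 1 := pow_le_one₀ (hη0 x) (hηle x)
        calc ψ ((u x - a) / d) * η x ^ 2 ≤ 1 * 1 := by
              gcongr
              exact hA.ψ_le _
          _ = 1 := by ring
      calc F x * (ψ ((u x - a) / d) * η x ^ 2) ≤ |F x * (ψ ((u x - a) / d) * η x ^ 2)| := le_abs_self _
        _ = |F x| * |ψ ((u x - a) / d) * η x ^ 2| := abs_mul _ _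
        _ ≤ |F x| * 1 := by gcongr
        _ = |F x| := mul_one _
    · rw [indicator_of_notMem hxB, hηz x hxB]
      simp
  -- the second function
  obtain hW2 := comp w hA.w_c1 hA.w_zero hA.dw_nonneg hA.dw_le
  obtain ⟨hJ1, hJ2, hJ3⟩ := hS Ω _ _ hmΩ hW2
  have pt2 : ∀ x, ‖η x ^ 2 • ((deriv w ((u x - a) / d) / d) • G x) +
          w ((u x - a) / d) • ∇ (fun x => η x ^ 2) x‖ ^ p ≤
      2 ^ (p - 1) * (K * d ^ (-p) * P x) + 2 ^ (p - 1) * (2 ^ p * K * 11 ^ p * (r ^ (-p) * Q x)) := by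
    intro x
    by_cases hxS : x ∈ S
    · have hxs := hspos x hxS.2
      have hQx : Q x = 1 + (s x) ^ gam N p := by rw [hQ, indicator_of_mem hxS]
      have e1 : w ((u x - a) / d) = w (s x) := rfl
      have e2 : deriv w ((u x - a) / d) = deriv w (s x) := rfl
      rw [grad_sq η hη1, e1, e2]
      have hη0x := hη0 x
      have hw0 := hA.w_nonneg (s x)
      have hdw0 := hA.dw_nonneg (s x)
      have hdψ0 := hA.dψ_nonneg (s x)
      set α : ℝ := η x ^ 2 * deriv w (s x) / d * ‖G x‖ with hα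
      set β : ℝ := w (s x) * (2 * η x * ‖∇ η x‖) with hβ
      have hα0 : 0 ≤ α := by positivity
      have hβ0 : 0 ≤ β := by positivity
      have hn : ‖η x ^ 2 • ((deriv w (s x) / d) • G x) + w (s x) • ((2 * η x) • ∇ η x)‖ ≤ α + β := by
        refine le_trans (norm_add_le _ _) (add_le_add (le_of_eq ?_) (le_of_eq ?_))
        · rw [norm_smul, norm_smul, Real.norm_eq_abs, Real.norm_eq_abs, abs_of_nonneg (by positivity),
            abs_of_nonneg (by positivity), hα]
          ring
        · rw [norm_smul, norm_smul, Real.norm_eq_abs, Real.norm_eq_abs, abs_of_nonneg (by positivity),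
            abs_of_nonneg (by positivity), hβ]
      have hαp : α ^ p ≤ K * d ^ (-p) * P x := by
        have h1 : α ^ p = (η x ^ 2) ^ p * (deriv w (s x)) ^ p * d ^ (-p) * ‖G x‖ ^ p := by
          rw [hα, Real.mul_rpow (by positivity) (norm_nonneg _), Real.div_rpow (by positivity) hd.le,
            Real.mul_rpow (by positivity) hdw0, Real.rpow_neg hd.le]
          ring
        have h2 : (η x ^ 2) ^ p ≤ η x ^ 2 := by
          have h3 : η x ^ 2 ≤ 1 := pow_le_one₀ (hη0 x) (hηle x)
          rcases eq_or_lt_of_le (sq_nonneg (η x)) with h | h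
          · rw [← h, Real.zero_rpow (by linarith)]
          · calc (η x ^ 2) ^ p ≤ (η x ^ 2) ^ (1 : ℝ) :=
                Real.rpow_le_rpow_of_exponent_ge h h3 hp1.le
              _ = η x ^ 2 := Real.rpow_one _
        have h4 := hA.dw_pow (s x)
        rw [h1]
        calc (η x ^ 2) ^ p * (deriv w (s x)) ^ p * d ^ (-p) * ‖G x‖ ^ p
            ≤ η x ^ 2 * (K * deriv ψ (s x)) * d ^ (-p) * ‖G x‖ ^ p := by gcongr
          _ = K * d ^ (-p) * P x := by rw [hP]; ring
      have hβp : β ^ p ≤ 2 ^ p * K * 11 ^ p * (r ^ (-p) * Q x) := by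
        have h1 : β ≤ w (s x) * (2 * (11 / r)) := by
          rw [hβ]
          have := hηle x
          have h2 := hηg x
          calc w (s x) * (2 * η x * ‖∇ η x‖) ≤ w (s x) * (2 * 1 * (11 / r)) := by gcongr
            _ = _ := by ring
        calc β ^ p ≤ (w (s x) * (2 * (11 / r))) ^ p := Real.rpow_le_rpow hβ0 h1 hp0.le
          _ = (w (s x)) ^ p * (2 ^ p * (11 ^ p * r ^ (-p))) := by
              rw [Real.mul_rpow hw0 (by positivity), Real.mul_rpow (by norm_num) (by positivity),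
                Real.div_rpow (by norm_num) hr.le, Real.rpow_neg hr.le]
              ring
          _ ≤ (K * (1 + (s x) ^ gam N p)) * (2 ^ p * (11 ^ p * r ^ (-p))) := by
              gcongr
              exact hA.w_pow _ hxs
          _ = 2 ^ p * K * 11 ^ p * (r ^ (-p) * Q x) := by rw [hQx]; ring
      calc _ ≤ (α + β) ^ p := Real.rpow_le_rpow (norm_nonneg _) hn hp0.le
        _ ≤ 2 ^ (p - 1) * (α ^ p + β ^ p) := add_rpow_le hp1.le hα0 hβ0
        _ ≤ 2 ^ (p - 1) * (K * d ^ (-p) * P x + 2 ^ p * K * 11 ^ p * (r ^ (-p) * Q x)) := by gcongr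
        _ = _ := by ring
    · have hV : η x ^ 2 • ((deriv w ((u x - a) / d) / d) • G x) +
          w ((u x - a) / d) • ∇ (fun x => η x ^ 2) x = 0 := by
        by_cases hxB : x ∈ ball x₀ r
        · have hxu : ¬ a < u x := fun h => hxS ⟨hxB, h⟩
          have h0 := hsneg x hxu
          have e1 : w ((u x - a) / d) = 0 := hA.w_zero _ h0
          have e2 : deriv w ((u x - a) / d) = 0 := hw'0 _ h0
          rw [e1, e2]; simp
        · rw [hηz x hxB, hzero x hxB]; simp
      rw [hV, norm_zero, Real.zero_rpow (by linarith)]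
      have := hPnn x
      have := hQnn x
      positivity
  set I : ℝ := ∫ x in Ω, Q x with hI
  set IP : ℝ := ∫ x in Ω, P x with hIP
  set IF : ℝ := ∫ x in ball x₀ r, |F x| with hIF
  have hI0 : 0 ≤ I := integral_nonneg hQnn
  have hIP0 : 0 ≤ IP := integral_nonneg hPnn
  have hIF0 : 0 ≤ IF := integral_nonneg fun x => abs_nonneg _
  have hE2 : ∫ x in Ω, ‖η x ^ 2 • ((deriv w ((u x - a) / d) / d) • G x) +
          w ((u x - a) / d) • ∇ (fun x => η x ^ 2) x‖ ^ p ≤
      2 ^ (p - 1) * (K * d ^ (-p) * IP) + 2 ^ (p - 1) * (2 ^ p * K * 11 ^ p * (r ^ (-p) * I)) := by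
    refine le_trans (integral_mono hJ2 (((hPint.const_mul _).const_mul _).add
      (((hQint.const_mul _).const_mul _).const_mul _)) pt2) (le_of_eq ?_)
    rw [integral_add' ((hPint.const_mul _).const_mul _) (((hQint.const_mul _).const_mul _).const_mul _),
      integral_const_mul, integral_const_mul, integral_const_mul, integral_const_mul,
      integral_const_mul]
  have hE4 : 2 ^ (p - 1) * (K * d ^ (-p) * IP) + 2 ^ (p - 1) * (2 ^ p * K * 11 ^ p * (r ^ (-p) * I)) ≤
      C2 * (d ^ (1 - p) * IF + r ^ (-p) * I) :=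
    final_arith hK hC1p hd (by positivity) hIF0 hE1
  have hhalf : ball x₀ (r / 2) ⊆ Ω := (ball_subset_ball (by linarith)).trans hB
  have heq : ∀ x ∈ ball x₀ (r / 2), (w ((u x - a) / d)) ^ pst N p =
      |w ((u x - a) / d) * η x ^ 2| ^ pst N p := by
    intro x hx
    rw [hηone x hx, one_pow, mul_one, abs_of_nonneg (hA.w_nonneg _)]
  have hJ1' : IntegrableOn (fun x => |w ((u x - a) / d) * η x ^ 2| ^ pst N p) (ball x₀ (r / 2)) :=
    hJ1.mono_set hhalf
  refine ⟨hJ1'.congr_fun (fun x hx => (heq x hx).symm) measurableSet_ball, ?_⟩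
  rw [setIntegral_congr_fun measurableSet_ball heq, hSint]
  have hpq : 0 ≤ p / pst N p := by positivity
  calc (∫ x in ball x₀ (r / 2), |w ((u x - a) / d) * η x ^ 2| ^ pst N p) ^ (p / pst N p)
      ≤ (∫ x in Ω, |w ((u x - a) / d) * η x ^ 2| ^ pst N p) ^ (p / pst N p) := by
        apply Real.rpow_le_rpow (integral_nonneg fun x => by positivity) _ hpq
        apply setIntegral_mono_set hJ1
        · exact Filter.Eventually.of_forall fun x => by positivity
        · exact hhalf.eventuallyLE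
    _ ≤ CS * ∫ x in Ω, ‖η x ^ 2 • ((deriv w ((u x - a) / d) / d) • G x) +
          w ((u x - a) / d) • ∇ (fun x => η x ^ 2) x‖ ^ p := hJ3
    _ ≤ CS * (C2 * (d ^ (1 - p) * IF + r ^ (-p) * I)) := by
        gcongr
        exact hE2.trans hE4
    _ = CS * C2 * (d ^ (1 - p) * IF + r ^ (-p) * I) := by ring

end Helper19.SDim
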