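import Pool.Agent.Helper19.SDim.Spec

noncomputable section

open MeasureTheory Filter Set Metric
open scoped Topology ENNReal NNReal RealInnerProductSpace ContDiff Gradient

namespace Helper19.SDim

theorem main_thm (hU : S_UPPER) (hO : S_ONE) (hL : S_LOWER) : S_MAIN := by
  intro p hp1 hp2 N hN Ω hΩ hb hne
  have hp0 : 0 < p - 1 := by linarith
  have hpp : 4 ≤ p * (p / (p - 1)) := by
    rw [← mul_div_assoc, le_div_iff₀ hp0]
    nlinarith [sq_nonneg (p - 2)]
  apply le_antisymm
  · unfold sdim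
    refine iSup₂_le fun u hu => ?_
    rcases Nat.lt_or_ge N 2 with h2 | h2
    · have h1 : N = 1 := by omega
      subst h1
      rw [hO p Ω u hp1 hΩ hb hu]
      simp
    · exact hU N p Ω u h2 hp1 hp2 hΩ hb hu
  · rcases le_or_gt (N - p * (p / (p - 1))) 0 with h0 | h0
    · rw [ENNReal.ofReal_of_nonpos h0]
      exact bot_le
    · refine le_of_forall_lt fun c hc => ?_
      have hc' : c ≠ ⊤ := ne_top_of_lt hc
      obtain ⟨s, hs1, hs2⟩ : ∃ s : ℝ, max c.toReal 0 < s ∧ s < N - p * (p / (p - 1)) := by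
        apply exists_between
        apply max_lt _ h0
        have := (ENNReal.lt_ofReal_iff_toReal_lt hc').1 hc
        exact this
      have hs0 : 0 < s := lt_of_le_of_lt (le_max_right _ _) hs1
      obtain ⟨u, hu, hd⟩ := hL N p s Ω hp1 hp2 hs0 hs2 hΩ hb hne
      refine lt_of_lt_of_le ?_ (le_trans hd (le_iSup₂ (f := fun u (_ : u ∈ X Ω p) => dimH (Sing Ω u)) u hu))
      rw [ENNReal.lt_ofReal_iff_toReal_lt hc']
      exact lt_of_le_of_lt (le_max_left _ _) hs1

end Helper19.SDim
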