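import Pool.Agent.Helper10.SDim.ONE
import Pool.Agent.Helper19.SDim.Cacc
import Pool.Agent.Helper19.SDim.Main
import Pool.Agent.Helper35.SDim.BARR
import Pool.Agent.Helper35.SDim.LOWER
import Pool.Agent.Helper35.SDim.MIN
import Pool.Agent.Helper35.SDim.MORREY
import Pool.Agent.Helper35.SDim.STEP
import Pool.Agent.Helper46.SDim.CANTOR
import Pool.Agent.Helper46.SDim.ITER
import Pool.Agent.Helper49.SDim.POIN
import Pool.Agent.Helper49.SDim.VEC
import Pool.Agent.Helper6.SDim.AuxFn
import Pool.Agent.Helper6.SDim.CUT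
import Pool.Agent.Helper6.SDim.DIV
import Pool.Agent.Helper70.SDim.CHAIN
import Pool.Agent.Helper70.SDim.DENS
import Pool.Agent.Helper70.SDim.EXT
import Pool.Agent.Helper70.SDim.PROD
import Pool.Agent.Helper70.SDim.SOB
import Pool.Agent.Helper70.SDim.SUB
import Pool.Agent.Helper71.SDim.EXIST
import Pool.Agent.Helper91.SDim.COMP
import Pool.Agent.Helper91.SDim.UPPER

/-!
# Assembly
-/

noncomputable section

open MeasureTheory Filter Set Metric
open scoped Topology ENNReal NNReal RealInnerProductSpace ContDiff Gradient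

namespace Helper19.SDim

theorem ext_all : S_EXT := Helper70.SDim.ext_thm Helper70.SDim.dens_thm

theorem cacc_all : S_CACC :=
  cacc_thm ext_all Helper70.SDim.chain_thm Helper70.SDim.prod_thm Helper70.SDim.sob_thm
    Helper6.SDim.CUT.cut_thm

theorem upper_all : S_UPPER :=
  Helper19.SDim.Upper.upper_thm cacc_all (Helper46.SDim.iter_thm Helper35.SDim.step_thm)
    Helper35.SDim.morrey_thm Helper6.SDim.AuxFn.aux_thm

theorem comp_all : S_COMP :=
  Helper19.SDim.Comp.comp_thm ext_all Helper70.SDim.chain_thm Helper70.SDim.sub_thm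
    Helper49.SDim.poin_thm Helper49.SDim.vec_thm

end Helper19.SDim
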