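import Mathlib

/-!
# Singular dimension of the solution sets of the `p`-Laplace equation: definitions
-/

noncomputable section

open MeasureTheory Filter Set Metric
open scoped Topology ENNReal NNReal RealInnerProductSpace ContDiff Gradient

namespace Helper19.SDim

/-- The Euclidean space `ℝ^N`. -/
abbrev E (N : ℕ) := EuclideanSpace ℝ (Fin N)

variable {N : ℕ}

/-- Test functions: `φ ∈ C_c^∞(Ω)`. -/
def Test (Ω : Set (E N)) (φ : E N → ℝ) : Prop :=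
  ContDiff ℝ ∞ φ ∧ HasCompactSupport φ ∧ tsupport φ ⊆ Ω

/-- `u ∈ W_0^{1,p}(Ω)` with weak gradient `G`: the pair `(u, G)` is the limit in `L^p(Ω)` of the pairs
`(φ_n, ∇φ_n)` for a sequence of test functions `φ_n ∈ C_c^∞(Ω)`. -/
def W0 (Ω : Set (E N)) (p : ℝ) (u : E N → ℝ) (G : E N → E N) : Prop :=
  MemLp u (ENNReal.ofReal p) (volume.restrict Ω) ∧
  MemLp G (ENNReal.ofReal p) (volume.restrict Ω) ∧
  ∃ φ : ℕ → E N → ℝ, (∀ n, Test Ω (φ n)) ∧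
    Tendsto (fun n => eLpNorm (fun x => φ n x - u x) (ENNReal.ofReal p) (volume.restrict Ω))
      atTop (𝓝 0) ∧
    Tendsto (fun n => eLpNorm (fun x => ∇ (φ n) x - G x) (ENNReal.ofReal p) (volume.restrict Ω))
      atTop (𝓝 0)

/-- `-div(|G|^{p-2} G) = F` in the sense of distributions on `Ω` (for `G` the gradient of `u` this is
`-Δ_p u = F` in `𝒟'(Ω)`). -/
def Eqn (Ω : Set (E N)) (p : ℝ) (G : E N → E N) (F : E N → ℝ) : Prop :=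
  ∀ φ : E N → ℝ, Test Ω φ →
    ∫ x in Ω, ‖G x‖ ^ (p - 2) * ⟪G x, ∇ φ x⟫ = ∫ x in Ω, F x * φ x

/-- The solution set `X(Ω, p)`: the functions `u ∈ W_0^{1,p}(Ω)` with `-Δ_p u = F` in `𝒟'(Ω)` for
some `F ∈ L^{p'}(Ω)`, `p' = p / (p - 1)`. -/
def X (Ω : Set (E N)) (p : ℝ) : Set (E N → ℝ) :=
  {u | ∃ (G : E N → E N) (F : E N → ℝ), W0 Ω p u G ∧
    MemLp F (ENNReal.ofReal (p / (p - 1))) (volume.restrict Ω) ∧ Eqn Ω p G F}

/-- The singular set of `u`. -/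
def Sing (Ω : Set (E N)) (u : E N → ℝ) : Set (E N) :=
  {a | a ∈ Ω ∧ ∃ C γ r : ℝ, 0 < C ∧ 0 < γ ∧ 0 < r ∧ ball a r ⊆ Ω ∧
    ∀ᵐ x ∂(volume.restrict (ball a r)), C * ‖x - a‖ ^ (-γ) ≤ u x}

/-- The singular dimension of a set of functions on `Ω`. -/
def sdim (Ω : Set (E N)) (Y : Set (E N → ℝ)) : ℝ≥0∞ := ⨆ u ∈ Y, dimH (Sing Ω u)

/-! ## Auxiliary notions for the proof -/

/-- `φ ∈ C_c^1(Ω)`. -/
def C1c (Ω : Set (E N)) (φ : E N → ℝ) : Prop :=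
  ContDiff ℝ 1 φ ∧ HasCompactSupport φ ∧ tsupport φ ⊆ Ω

/-- The functions `φ_n ∈ C_c^1(Ω)` approximate `(u, G)` in `W^{1,p}(Ω)`. -/
structure Apx (Ω : Set (E N)) (p : ℝ) (φ : ℕ → E N → ℝ) (u : E N → ℝ) (G : E N → E N) : Prop where
  c1 : ∀ n, C1c Ω (φ n)
  mu : MemLp u (ENNReal.ofReal p) (volume.restrict Ω)
  mG : MemLp G (ENNReal.ofReal p) (volume.restrict Ω)
  tu : Tendsto (fun n => eLpNorm (fun x => φ n x - u x) (ENNReal.ofReal p) (volume.restrict Ω))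
      atTop (𝓝 0)
  tG : Tendsto (fun n => eLpNorm (fun x => ∇ (φ n) x - G x) (ENNReal.ofReal p) (volume.restrict Ω))
      atTop (𝓝 0)

/-- `u ∈ W_0^{1,p}(Ω)` with gradient `G`, through approximations in `C_c^1(Ω)`. -/
def W1 (Ω : Set (E N)) (p : ℝ) (u : E N → ℝ) (G : E N → E N) : Prop := ∃ φ, Apx Ω p φ u G

/-- The Sobolev exponent `p* = N p / (N - p)`. -/
def pst (N : ℕ) (p : ℝ) : ℝ := N * p / (N - p)

/-- The exponent `γ = N (p - 1) / (N - p + 1)`. -/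
def gam (N : ℕ) (p : ℝ) : ℝ := N * (p - 1) / (N - p + 1)

/-- The two auxiliary functions of the Caccioppoli estimate. -/
structure Aux (N : ℕ) (p : ℝ) (ψ w : ℝ → ℝ) (K : ℝ) : Prop where
  K_pos : 0 < K
  ψ_c1 : ContDiff ℝ 1 ψ
  w_c1 : ContDiff ℝ 1 w
  ψ_zero : ∀ s ≤ 0, ψ s = 0
  w_zero : ∀ s ≤ 0, w s = 0
  ψ_nonneg : ∀ s, 0 ≤ ψ s
  ψ_le : ∀ s, ψ s ≤ 1
  w_nonneg : ∀ s, 0 ≤ w s
  dψ_nonneg : ∀ s, 0 ≤ deriv ψ s
  dψ_le : ∀ s, deriv ψ s ≤ K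
  dw_nonneg : ∀ s, 0 ≤ deriv w s
  dw_le : ∀ s, deriv w s ≤ K
  dw_pow : ∀ s, (deriv w s) ^ p ≤ K * deriv ψ s
  ψ_bound : ∀ s, 0 < s → ψ s ≤ K * (1 + s ^ gam N p) ^ (1 / p) * (deriv ψ s) ^ ((p - 1) / p)
  w_pow : ∀ s, 0 < s → (w s) ^ p ≤ K * (1 + s ^ gam N p)
  w_low : ∀ ε > 0, ∃ C > 0, ∀ s ≥ ε, s ^ gam N p ≤ C * (w s) ^ pst N p

end Helper19.SDim
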