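import Pool.Agent.Helper19.SDim.Defs

/-!
# Exact statements of the parts (`S_xxx : Prop`)
-/

noncomputable section

open MeasureTheory Filter Set Metric
open scoped Topology ENNReal NNReal RealInnerProductSpace ContDiff Gradient

namespace Helper19.SDim

/-! ### Calculus of `W_0^{1,p}` -/

/-- DENS: `C_c^∞(Ω)` is dense in `C_c^1(Ω)` (mollification). -/
def S_DENS : Prop := ∀ (N : ℕ) (Ω : Set (E N)) (φ : E N → ℝ) (p : ℝ), IsOpen Ω → 1 ≤ p → C1c Ω φ →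
  ∃ ψ : ℕ → E N → ℝ, (∀ n, Test Ω (ψ n)) ∧
    Tendsto (fun n => eLpNorm (fun x => ψ n x - φ x) (ENNReal.ofReal p) (volume.restrict Ω))
      atTop (𝓝 0) ∧
    Tendsto (fun n => eLpNorm (fun x => ∇ (ψ n) x - ∇ φ x) (ENNReal.ofReal p) (volume.restrict Ω))
      atTop (𝓝 0)

/-- CHAIN: chain rule; a subsequence of `h ∘ φ_n` approximates `h ∘ u`. -/
def S_CHAIN : Prop := ∀ (N : ℕ) (Ω : Set (E N)) (p : ℝ) (φ : ℕ → E N → ℝ) (u : E N → ℝ)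
    (G : E N → E N) (h : ℝ → ℝ) (L : ℝ), 1 ≤ p → Apx Ω p φ u G → ContDiff ℝ 1 h → h 0 = 0 →
    (∀ t, |deriv h t| ≤ L) →
    ∃ k : ℕ → ℕ, StrictMono k ∧
      Apx Ω p (fun n x => h (φ (k n) x)) (fun x => h (u x)) (fun x => deriv h (u x) • G x)

/-- PROD: product with a bounded `C^1` function with bounded gradient. -/
def S_PROD : Prop := ∀ (N : ℕ) (Ω : Set (E N)) (p : ℝ) (φ : ℕ → E N → ℝ) (u : E N → ℝ)
    (G : E N → E N) (η : E N → ℝ) (L : ℝ), 1 ≤ p → Apx Ω p φ u G → ContDiff ℝ 1 η →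
    (∀ x, |η x| ≤ L) → (∀ x, ‖∇ η x‖ ≤ L) →
    Apx Ω p (fun n x => φ n x * η x) (fun x => u x * η x) (fun x => η x • G x + u x • ∇ η x)

/-- SUB: differences. -/
def S_SUB : Prop := ∀ (N : ℕ) (Ω : Set (E N)) (p : ℝ) (φ ψ : ℕ → E N → ℝ) (u v : E N → ℝ)
    (G V : E N → E N), 1 ≤ p → Apx Ω p φ u G → Apx Ω p ψ v V →
    Apx Ω p (fun n x => φ n x - ψ n x) (fun x => u x - v x) (fun x => G x - V x)

/-- EXT: the equation may be tested with all of `W_0^{1,p}`. -/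
def S_EXT : Prop := ∀ (N : ℕ) (Ω : Set (E N)) (p : ℝ) (G : E N → E N) (F : E N → ℝ)
    (v : E N → ℝ) (V : E N → E N), IsOpen Ω → 1 < p →
    MemLp G (ENNReal.ofReal p) (volume.restrict Ω) →
    MemLp F (ENNReal.ofReal (p / (p - 1))) (volume.restrict Ω) → Eqn Ω p G F → W1 Ω p v V →
    IntegrableOn (fun x => ‖G x‖ ^ (p - 2) * ⟪G x, V x⟫) Ω ∧ IntegrableOn (fun x => F x * v x) Ω ∧
    ∫ x in Ω, ‖G x‖ ^ (p - 2) * ⟪G x, V x⟫ = ∫ x in Ω, F x * v x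

/-- SOB: the Sobolev inequality (constant depending only on `N`, `p`). -/
def S_SOB : Prop := ∀ (N : ℕ) (p : ℝ), 2 ≤ N → 1 < p → p < 2 →
  ∃ C > 0, ∀ (Ω : Set (E N)) (v : E N → ℝ) (V : E N → E N), MeasurableSet Ω → W1 Ω p v V →
    IntegrableOn (fun x => |v x| ^ pst N p) Ω ∧ IntegrableOn (fun x => ‖V x‖ ^ p) Ω ∧
    (∫ x in Ω, |v x| ^ pst N p) ^ (p / pst N p) ≤ C * ∫ x in Ω, ‖V x‖ ^ p

/-- POIN: the Poincaré inequality on bounded sets. -/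
def S_POIN : Prop := ∀ (N : ℕ) (p : ℝ) (Ω : Set (E N)), 2 ≤ N → 1 < p → p < 2 →
  Bornology.IsBounded Ω → MeasurableSet Ω →
  ∃ C : ℝ≥0, ∀ (v : E N → ℝ) (V : E N → E N), W1 Ω p v V →
    eLpNorm v (ENNReal.ofReal p) (volume.restrict Ω) ≤
      C * eLpNorm V (ENNReal.ofReal p) (volume.restrict Ω)

/-! ### The upper bound -/

/-- AUX: existence of the two auxiliary functions. -/
def S_AUX : Prop := ∀ (N : ℕ) (p : ℝ), 2 ≤ N → 1 < p → p < 2 → ∃ ψ w K, Aux N p ψ w K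

/-- CUT: cut-off functions. -/
def S_CUT : Prop := ∀ (N : ℕ) (x₀ : E N) (r : ℝ), 0 < r → ∃ η : E N → ℝ, ContDiff ℝ 1 η ∧
  (∀ x, 0 ≤ η x) ∧ (∀ x, η x ≤ 1) ∧ (∀ x ∈ ball x₀ (r / 2), η x = 1) ∧
  (∀ x, x ∉ ball x₀ r → η x = 0) ∧ (∀ x, x ∉ ball x₀ r → ∇ η x = 0) ∧ (∀ x, ‖∇ η x‖ ≤ 11 / r)

/-- CACC: the energy estimate. -/
def S_CACC : Prop := ∀ (N : ℕ) (p : ℝ) (ψ w : ℝ → ℝ) (K : ℝ), 2 ≤ N → 1 < p → p < 2 →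
  Aux N p ψ w K → ∃ C > 0, ∀ (Ω : Set (E N)) (u : E N → ℝ) (G : E N → E N) (F : E N → ℝ),
    IsOpen Ω → W1 Ω p u G → MemLp F (ENNReal.ofReal (p / (p - 1))) (volume.restrict Ω) →
    Eqn Ω p G F → ∀ (x₀ : E N) (r a d : ℝ), 0 < r → ball x₀ r ⊆ Ω → 0 ≤ a → 0 < d →
    IntegrableOn (fun x => (w ((u x - a) / d)) ^ pst N p) (ball x₀ (r / 2)) ∧
    (∫ x in ball x₀ (r / 2), (w ((u x - a) / d)) ^ pst N p) ^ (p / pst N p) ≤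
      C * (d ^ (1 - p) * (∫ x in ball x₀ r, |F x|) +
        r ^ (-p) * ∫ x in ball x₀ r ∩ {x | a < u x}, (1 + ((u x - a) / d) ^ gam N p))

/-- STEP: one step of the level iteration (pure real analysis). `t⁺ = max t 0`. -/
def S_STEP : Prop := ∀ (N : ℕ) (p : ℝ) (ψ w : ℝ → ℝ) (K C : ℝ), 2 ≤ N → 1 < p → p < 2 →
  Aux N p ψ w K → 0 < C → ∃ δ : ℝ, 0 < δ ∧ δ < 1 ∧
    ENNReal.ofReal (2 ^ N * δ ^ gam N p) < volume (ball (0 : E N) 1) ∧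
    ∃ C₁ > 0, ∀ (u : E N → ℝ) (x₀ : E N) (r a₀ d₀ a d μ : ℝ), 0 < r → 0 ≤ a₀ → 0 < d₀ →
      a = a₀ + d₀ → 0 < d → d₀ ≤ 2 * d →
      AEStronglyMeasurable u (volume.restrict (ball x₀ r)) →
      IntegrableOn (fun x => |u x| ^ gam N p) (ball x₀ r) →
      ∫ x in ball x₀ r, (max (u x - a₀) 0) ^ gam N p = δ ^ gam N p * d₀ ^ gam N p * (2 * r) ^ N →
      ∫ x in ball x₀ (r / 2), (max (u x - a) 0) ^ gam N p = δ ^ gam N p * d ^ gam N p * r ^ N →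
      IntegrableOn (fun x => (w ((u x - a) / d)) ^ pst N p) (ball x₀ (r / 2)) →
      (∫ x in ball x₀ (r / 2), (w ((u x - a) / d)) ^ pst N p) ^ (p / pst N p) ≤
        C * (d ^ (1 - p) * μ +
          r ^ (-p) * ∫ x in ball x₀ r ∩ {x | a < u x}, (1 + ((u x - a) / d) ^ gam N p)) →
      d ^ (p - 1) ≤ C₁ * (r ^ (p - N) * μ)

/-- ITER: the level iteration (pure real analysis). -/
def S_ITER : Prop := ∀ (N : ℕ) (p : ℝ) (ψ w : ℝ → ℝ) (K C M ε₀ R : ℝ) (u : E N → ℝ) (x₀ : E N),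
  2 ≤ N → 1 < p → p < 2 → Aux N p ψ w K → 0 < C → 0 < M → 0 < ε₀ → 0 < R →
  AEStronglyMeasurable u (volume.restrict (ball x₀ R)) →
  IntegrableOn (fun x => |u x| ^ gam N p) (ball x₀ R) →
  (∀ r a d : ℝ, 0 < r → r ≤ R → 0 ≤ a → 0 < d →
    IntegrableOn (fun x => (w ((u x - a) / d)) ^ pst N p) (ball x₀ (r / 2)) ∧
    (∫ x in ball x₀ (r / 2), (w ((u x - a) / d)) ^ pst N p) ^ (p / pst N p) ≤
      C * (d ^ (1 - p) * (M * r ^ (N - p + ε₀)) +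
        r ^ (-p) * ∫ x in ball x₀ r ∩ {x | a < u x}, (1 + ((u x - a) / d) ^ gam N p))) →
  ∃ a : ℝ, ∀ r > 0, ¬ ∀ᵐ x ∂(volume.restrict (ball x₀ r)), a < u x

/-- MORREY: the set of points where an integrable function fails a Morrey bound. -/
def S_MORREY : Prop := ∀ (N : ℕ) (f : E N → ℝ) (s : ℝ), Integrable f → (∀ x, 0 ≤ f x) → 0 < s →
  dimH {x : E N | ¬ ∃ M > 0, ∃ r₀ > 0, ∀ r : ℝ, 0 < r → r < r₀ → ∫ y in ball x r, f y ≤ M * r ^ s}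
    ≤ ENNReal.ofReal s

/-- UPPER: upper bound in dimension `≥ 2`. -/
def S_UPPER : Prop := ∀ (N : ℕ) (p : ℝ) (Ω : Set (E N)) (u : E N → ℝ), 2 ≤ N → 1 < p → p < 2 →
  IsOpen Ω → Bornology.IsBounded Ω → u ∈ X Ω p →
  dimH (Sing Ω u) ≤ ENNReal.ofReal (N - p * (p / (p - 1)))

/-- ONE: no singular points in dimension one. -/
def S_ONE : Prop := ∀ (p : ℝ) (Ω : Set (E 1)) (u : E 1 → ℝ), 1 < p →
  IsOpen Ω → Bornology.IsBounded Ω → u ∈ X Ω p → Sing Ω u = ∅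

/-! ### The lower bound -/

/-- CANTOR: Cantor sets. -/
def S_CANTOR : Prop := ∀ (N : ℕ) (s b ρ : ℝ) (x₀ : E N), 1 ≤ N → 0 < s → 0 ≤ b → s + b < N →
  0 < ρ → ∃ A : Set (E N), IsCompact A ∧ A.Nonempty ∧ A ⊆ closedBall x₀ ρ ∧ volume A = 0 ∧
    ENNReal.ofReal s ≤ dimH A ∧
    ∀ R : ℝ, ∫⁻ x in ball x₀ R, ENNReal.ofReal ((infDist x A) ^ (-b)) < ⊤

/-- VEC: inequalities for vectors, `1 < p < 2`. -/
def S_VEC : Prop := ∀ (N : ℕ) (p : ℝ), 1 < p → p < 2 →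
  (∃ c > 0, ∀ a b : E N, c * (‖a - b‖ ^ 2 * (‖a‖ + ‖b‖) ^ (p - 2)) ≤
    (‖a‖ ^ p + ‖b‖ ^ p) / 2 - ‖(1 / 2 : ℝ) • (a + b)‖ ^ p) ∧
  (∀ a b : E N, ‖b‖ ^ p + p * (‖b‖ ^ (p - 2) * ⟪b, a - b⟫) ≤ ‖a‖ ^ p) ∧
  (∀ a b : E N, a ≠ b → 0 < ⟪‖a‖ ^ (p - 2) • a - ‖b‖ ^ (p - 2) • b, a - b⟫)

/-- MIN: existence of a minimiser of the energy. -/
def S_MIN : Prop := ∀ (N : ℕ) (p : ℝ) (Ω : Set (E N)) (F : E N → ℝ), 2 ≤ N → 1 < p → p < 2 →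
  IsOpen Ω → Bornology.IsBounded Ω → MemLp F (ENNReal.ofReal (p / (p - 1))) (volume.restrict Ω) →
  ∃ u G, W0 Ω p u G ∧ ∀ v V, W0 Ω p v V →
    1 / p * (∫ x in Ω, ‖G x‖ ^ p) - (∫ x in Ω, F x * u x) ≤
    1 / p * (∫ x in Ω, ‖V x‖ ^ p) - (∫ x in Ω, F x * v x)

/-- EXIST: existence of solutions. -/
def S_EXIST : Prop := ∀ (N : ℕ) (p : ℝ) (Ω : Set (E N)) (F : E N → ℝ), 2 ≤ N → 1 < p → p < 2 →
  IsOpen Ω → Bornology.IsBounded Ω → MemLp F (ENNReal.ofReal (p / (p - 1))) (volume.restrict Ω) →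
  ∃ u G, W0 Ω p u G ∧ Eqn Ω p G F

/-- COMP: comparison with `C^1` subsolutions of compact support. -/
def S_COMP : Prop := ∀ (N : ℕ) (p : ℝ) (Ω : Set (E N)) (u : E N → ℝ) (G : E N → E N) (F v : E N → ℝ),
  2 ≤ N → 1 < p → p < 2 → IsOpen Ω → Bornology.IsBounded Ω → W1 Ω p u G →
  MemLp F (ENNReal.ofReal (p / (p - 1))) (volume.restrict Ω) → Eqn Ω p G F → C1c Ω v →
  (∀ φ, C1c Ω φ → (∀ x, 0 ≤ φ x) →
    ∫ x in Ω, ‖∇ v x‖ ^ (p - 2) * ⟪∇ v x, ∇ φ x⟫ ≤ ∫ x in Ω, F x * φ x) →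
  ∀ᵐ x ∂(volume.restrict Ω), v x ≤ u x

/-- DIV: integration by parts for a radial vector field. -/
def S_DIV : Prop := ∀ (N : ℕ) (M : ℝ → ℝ) (a : E N) (φ : E N → ℝ), ContDiff ℝ 1 M →
  ContDiff ℝ 1 φ → HasCompactSupport φ →
  - ∫ x, M (‖x - a‖ ^ 2) * ⟪x - a, ∇ φ x⟫ =
    ∫ x, (N * M (‖x - a‖ ^ 2) + 2 * ‖x - a‖ ^ 2 * deriv M (‖x - a‖ ^ 2)) * φ x

/-- BARR: the explicit subsolutions. -/
def S_BARR : Prop := ∀ (N : ℕ) (p κ ρ : ℝ), 1 ≤ N → 1 < p → p < 2 → p < 2 * κ → 0 < ρ →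
  ∃ c > 0, ∃ ρ' > 0, ρ' ≤ ρ ∧ ∀ (a : E N) (ε : ℝ), 0 < ε → ∃ v : E N → ℝ,
    ContDiff ℝ 1 v ∧ HasCompactSupport v ∧ tsupport v ⊆ closedBall a ρ ∧
    (∀ φ : E N → ℝ, ContDiff ℝ 1 φ → HasCompactSupport φ → (∀ x, 0 ≤ φ x) →
      ∫ x, ‖∇ v x‖ ^ (p - 2) * ⟪∇ v x, ∇ φ x⟫ ≤
        ∫ x in ball a ρ, N * (‖x - a‖ ^ 2 + ε ^ 2) ^ (-κ) * φ x) ∧
    ∀ x ∈ ball a ρ', c * ((2 * ‖x - a‖ ^ 2 + ε ^ 2) ^ (-(κ / (p - 1))) *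
      ‖x - a‖ ^ (p / (p - 1))) ≤ v x

/-- LOWER: the lower bound. -/
def S_LOWER : Prop := ∀ (N : ℕ) (p s : ℝ) (Ω : Set (E N)), 1 < p → p < 2 → 0 < s →
  s < N - p * (p / (p - 1)) → IsOpen Ω → Bornology.IsBounded Ω → Ω.Nonempty →
  ∃ u ∈ X Ω p, ENNReal.ofReal s ≤ dimH (Sing Ω u)

/-- MAIN. -/
def S_MAIN : Prop := ∀ (p : ℝ), 1 < p → p < 2 → ∀ (N : ℕ), 1 ≤ N → ∀ Ω : Set (E N),
  IsOpen Ω → Bornology.IsBounded Ω → Ω.Nonempty →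
  sdim Ω (X Ω p) = ENNReal.ofReal (N - p * (p / (p - 1)))

end Helper19.SDim
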